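import Pool.Agent.Helper85.ES.StI2

/-!
# Project ES (MP_cb927e_an), module OVL: one age level at a point
-/

set_option autoImplicit false

open MeasureTheory Set Filter Topology
open scoped ENNReal RealInnerProductSpace

namespace Pool.Agent.Helper36.ES

open Pool.Agent.Helper85.ES Pool.Agent.Helper20.RG Pool.Agent.Helper20.RL
open Pool.Agent.Helper68.EP (Fb DQ3 Par Dat Sy q0 q1 DD Fo Rs)
open Pool.Agent.Helper61.EP (Nn D8 trS dat Yc)
open Pool.Agent.Helper68.ES (ag Eg th Rc hn Crit cr Lw)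
open Pool.Agent.Helper68.LM (Pl BB Bd Av HL ft fm DQ)

private theorem ovl_BB {F : Set Pl} (hF : BM F) : BB (F.indicator 1) := by
  obtain ⟨h1, h2⟩ := hF
  refine ⟨measurable_one.indicator h1, ?_⟩
  obtain ⟨R, hR⟩ := h2.exists_norm_le
  refine ⟨max 1 R, fun x => ?_, fun x hx => ?_⟩
  · by_cases h : x ∈ F
    · rw [Set.indicator_of_mem h]
      simp
    · rw [Set.indicator_of_notMem h]
      simp
  · rw [Set.indicator_of_notMem]
    intro h
    have := hR x h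
    have h3 := lt_of_le_of_lt (le_max_right 1 R) hx
    linarith

/-- the dyadic level of a number -/
private theorem ovl_level (n : ℕ) (v : ℝ) (h1 : v ≤ 1) (h2 : (2 : ℝ) ^ (-(n : ℤ)) < v) :
    ∃ i < n, (2 : ℝ) ^ (-(i : ℤ) - 1) < v ∧ v ≤ (2 : ℝ) ^ (-(i : ℤ)) := by
  induction n with
  | zero =>
    simp only [Nat.cast_zero, neg_zero, zpow_zero] at h2
    exact absurd h2 (not_lt.2 h1)
  | succ n ih =>
    rcases lt_or_ge ((2 : ℝ) ^ (-(n : ℤ))) v with h | h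
    · obtain ⟨i, hi, h3⟩ := ih h
      exact ⟨i, Nat.lt_succ_of_lt hi, h3⟩
    · refine ⟨n, Nat.lt_succ_self n, ?_, h⟩
      have e : -((n + 1 : ℕ) : ℤ) = -(n : ℤ) - 1 := by push_cast; ring
      rwa [e] at h2

/-- the combinatorial part: `v j ∈ [0,1]`, `H i j` holds when `2^(-i-1) ≤ v j` -/
private theorem ovl_sum (u : ℕ) (t : ℝ) (v : ℕ → ℝ) (H : ℕ → ℕ → Prop)
    (hv : ∀ j < 2 ^ u, v j ≤ 1)
    (hH : ∀ i j : ℕ, j < 2 ^ u → (2 : ℝ) ^ (-(i : ℤ) - 1) ≤ v j → H i j) :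
    trS (2 ^ u) t v ≤ (2 : ℝ) ^ (-(u : ℤ)) +
      ∑ i ∈ (Finset.range (2 * u)).filter (fun i : ℕ => (2 : ℝ) ^ (-(i : ℤ) - 1) < t),
        (2 : ℝ) ^ (-(i : ℤ)) * ({j : ℕ | j < 2 ^ u ∧ H i j}.ncard : ℝ) := by
  classical
  set S := (Finset.range (2 * u)).filter (fun i : ℕ => (2 : ℝ) ^ (-(i : ℤ) - 1) < t) with hS
  have hterm : ∀ j ∈ Finset.range (2 ^ u), (if v j < t then v j else 0) ≤
      (2 : ℝ) ^ (-((2 * u : ℕ) : ℤ)) + ∑ i ∈ S, (2 : ℝ) ^ (-(i : ℤ)) * (if H i j then 1 else 0) := by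
    intro j hj
    rw [Finset.mem_range] at hj
    have hnn : ∀ i ∈ S, (0 : ℝ) ≤ (2 : ℝ) ^ (-(i : ℤ)) * (if H i j then 1 else 0) := by
      intro i _
      split_ifs <;> positivity
    have hsum := Finset.sum_nonneg hnn
    have hp : (0 : ℝ) < (2 : ℝ) ^ (-((2 * u : ℕ) : ℤ)) := by positivity
    split_ifs with h
    · rcases le_or_gt (v j) ((2 : ℝ) ^ (-((2 * u : ℕ) : ℤ))) with h1 | h1
      · linarith
      · obtain ⟨i, hi, h2, h3⟩ := ovl_level (2 * u) (v j) (hv j hj) h1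
        have hiS : i ∈ S := by
          rw [hS, Finset.mem_filter, Finset.mem_range]
          exact ⟨hi, h2.trans h⟩
        have h4 := Finset.single_le_sum hnn hiS
        rw [if_pos (hH i j hj h2.le), mul_one] at h4
        linarith
    · linarith
  have hcard : ∀ i, ({j : ℕ | j < 2 ^ u ∧ H i j}.ncard : ℝ) =
      ∑ j ∈ Finset.range (2 ^ u), (if H i j then (1 : ℝ) else 0) := by
    intro i
    rw [← Finset.sum_filter, Finset.sum_const, nsmul_eq_mul, mul_one]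
    have e : {j : ℕ | j < 2 ^ u ∧ H i j} =
        (((Finset.range (2 ^ u)).filter (fun j => H i j) : Finset ℕ) : Set ℕ) := by
      ext j
      simp
    rw [e, Set.ncard_coe_finset]
  have e1 : ((2 ^ u : ℕ) : ℝ) * (2 : ℝ) ^ (-((2 * u : ℕ) : ℤ)) = (2 : ℝ) ^ (-(u : ℤ)) := by
    have h1 : ((2 ^ u : ℕ) : ℝ) = (2 : ℝ) ^ ((u : ℕ) : ℤ) := by
      rw [zpow_natCast]
      push_cast
      rfl
    rw [h1, ← zpow_add₀ (by norm_num : (2 : ℝ) ≠ 0)]
    congr 1
    push_cast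
    ring
  calc trS (2 ^ u) t v = ∑ j ∈ Finset.range (2 ^ u), (if v j < t then v j else 0) := rfl
    _ ≤ ∑ j ∈ Finset.range (2 ^ u), ((2 : ℝ) ^ (-((2 * u : ℕ) : ℤ)) +
          ∑ i ∈ S, (2 : ℝ) ^ (-(i : ℤ)) * (if H i j then 1 else 0)) := Finset.sum_le_sum hterm
    _ = (2 : ℝ) ^ (-(u : ℤ)) + ∑ i ∈ S, (2 : ℝ) ^ (-(i : ℤ)) *
          ({j : ℕ | j < 2 ^ u ∧ H i j}.ncard : ℝ) := by
        rw [Finset.sum_add_distrib, Finset.sum_const, Finset.card_range, nsmul_eq_mul, e1,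
          Finset.sum_comm]
        congr 1
        refine Finset.sum_congr rfl fun i _ => ?_
        rw [hcard i, Finset.mul_sum]

theorem hOVL (hYB : Pool.Agent.Helper20.RG.StYB) (hLGY : Pool.Agent.Helper20.RL.StLGY) :
    Pool.Agent.Helper85.ES.StOVL := by
  intro u k t sl c m F x _ hF hsl
  refine ovl_sum u t (fun j => Y (sl j) (c j) (m j) (1 / (2 : ℝ) ^ u) k (F.indicator 1) x)
    (fun i j => Hit (sl j) (c j) (m j) u k
      {y | Rich F (sl j) (k - (u : ℤ)) (k - (m j : ℤ)) (th i) y} x) ?_ ?_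
  · intro j hj
    obtain ⟨_, _, _, h, _⟩ := hYB (sl j) (c j) (m j) (1 / (2 : ℝ) ^ u) k (F.indicator 1)
      (hsl j hj).1 (by positivity) (ovl_BB hF)
    refine h 1 (fun z => ?_) x
    by_cases hz : z ∈ F
    · rw [Set.indicator_of_mem hz]; simp
    · rw [Set.indicator_of_notMem hz]; norm_num
  · intro i j hj hv
    have hth : (2 : ℝ) ^ (-(i : ℤ) - 1) / 18 = th i := by
      unfold Pool.Agent.Helper68.ES.th
      rw [zpow_sub₀ (by norm_num : (2 : ℝ) ≠ 0), zpow_one]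
      ring
    have h := hLGY (sl j) (c j) (m j) u k F ((2 : ℝ) ^ (-(i : ℤ) - 1)) x (hsl j hj).1
      (hsl j hj).2 hF (by positivity) hv
    rw [hth] at h
    exact h

end Pool.Agent.Helper36.ES
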